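import Pool.Agent.Y881.CS.All
import Pool.Agent.Y881.CS.Fin2

/-!
# Q1 for the sets which contain a dense subset of large additive energy

Let `A ⊆ ℤ/N` have density `α ≤ 1/2` and let `A₁ ⊆ A` have density at least `α ^ C₀` and additive energy
`E(A₁) ≥ |A₁|³ / K`. Put `ℓ = log (1/α)` and `κ = log (2 K)`. The theorem says that `2A - 2A` contains a Bohr set of
radius at least `c / ℓ` with at most `C (ℓ + (κ log (2 + κ)) ^ 5) / log (2 + ℓ)` frequencies; in particular the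
conclusion of Q1 holds if `κ ^ 5 log (2 + κ) ^ 4 ≤ C₀ ℓ`, that is if `K` is at most
`exp (c (log (1/α)) ^ (1/5) / (loglog (1/α)) ^ (4/5))`.

The proof: the Balog-Szemerédi-Gowers theorem; the near-polynomial Freiman-Ruzsa theorem of `Pool/Agent/H112R2`, which
gives a proper coset progression `X` of dimension `O(κ)` with `|A + X| ≤ exp (O(κ log (2 + κ))) |A|`; Croot-Sisask
almost periodicity relative to `X` and the argument of Sanders; a version of Chang's theorem relative to `X`; the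
theorem of the starting file `ProperProgressions` for a short multiple of `X`.
-/

set_option autoImplicit false

namespace Pool.Agent.Results.MP_169871_nt.EnergeticSubset

open Pool.Agent.TH858

/-- The Bohr set `B(Γ, ε) = {x ∈ ℤ/N : ‖γ x / N‖ ≤ ε for all γ ∈ Γ}`; the norm is the distance to the nearest
integer. -/
def bohr {N : ℕ} (Γ : Finset (ZMod N)) (ε : ℝ) : Set (ZMod N) :=
  {x | ∀ γ ∈ Γ, |((γ * x).val : ℝ) / (N : ℝ) - ((round (((γ * x).val : ℝ) / (N : ℝ)) : ℤ) : ℝ)| ≤ ε}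

/-- The set `2A - 2A`. -/
def twoAMinusTwoA {N : ℕ} (A : Finset (ZMod N)) : Set (ZMod N) :=
  {x | ∃ a₁ ∈ A, ∃ a₂ ∈ A, ∃ a₃ ∈ A, ∃ a₄ ∈ A, x = a₁ + a₂ - a₃ - a₄}

/-- **Q1 for the sets which contain a dense subset of large additive energy.** Mathlib's `Finset.addEnergy A₁ A₁` is
the number of quadruples of elements of `A₁` with `a + b = c + d`; `log (N / |A|)` is `log (1/α)`. -/
theorem result (C₀ : ℝ) (hC₀ : 0 < C₀) :
    ∃ C c : ℝ, 0 < C ∧ 0 < c ∧
      ∀ N : ℕ, 0 < N → ∀ (A A₁ : Finset (ZMod N)) (K : ℝ),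
        (A.card : ℝ) / (N : ℝ) ≤ 1 / 2 → A₁ ⊆ A → A₁.Nonempty →
        -- `A₁` has density at least `α ^ C₀`
        Real.log ((N : ℝ) / (A₁.card : ℝ)) ≤ C₀ * Real.log ((N : ℝ) / (A.card : ℝ)) →
        -- `A₁` has additive energy at least `|A₁| ^ 3 / K`
        1 ≤ K → (A₁.card : ℝ) ^ 3 ≤ K * (Finset.addEnergy A₁ A₁ : ℕ) →
        ∃ (Γ : Finset (ZMod N)) (ε : ℝ), 0 < ε ∧
          c / Real.log ((N : ℝ) / (A.card : ℝ)) ≤ ε ∧
          -- the bound for the dimension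
          (Γ.card : ℝ) ≤ C * ((Real.log ((N : ℝ) / (A.card : ℝ)) +
              (Real.log (2 * K) * Real.log (2 + Real.log (2 * K))) ^ 5) /
            Real.log (2 + Real.log ((N : ℝ) / (A.card : ℝ)))) ∧
          -- the bound of Q1
          (Real.log (2 * K) ^ 5 * Real.log (2 + Real.log (2 * K)) ^ 4 ≤
              C₀ * Real.log ((N : ℝ) / (A.card : ℝ)) →
            (Γ.card : ℝ) ≤ C * Real.log ((N : ℝ) / (A.card : ℝ))) ∧
          bohr Γ ε ⊆ twoAMinusTwoA A := by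
  obtain ⟨C, c, hC, hc, h⟩ := Pool.Agent.Y881.CS.fin2 Pool.Agent.Y881.CS.th1_holds C₀ hC₀
  refine ⟨C, c, hC, hc, fun N hN A A₁ K hα hsub hne hℓ hK hE => ?_⟩
  have : NeZero N := ⟨hN.ne'⟩
  obtain ⟨Γ, ε, h1, h2, h3, h4, h5⟩ := h N A A₁ K hsub hne hα hK hE hℓ
  exact ⟨Γ, ε, h1, h2, h3, h4, fun x hx => h5 x fun g hg => hx g hg⟩

end Pool.Agent.Results.MP_169871_nt.EnergeticSubset
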